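import Mathlib

namespace Pool.Agent.Results.MP_ff748e_nt.Equiv

open Finset

/-- Sum of the positive divisors. -/
def sig (n : ℕ) : ℕ := ∑ d ∈ n.divisors, d

/-- Denominator of sigma(n)/n in lowest terms. -/
def a (n : ℕ) : ℕ := n / Nat.gcd n (sig n)

/-- Practical numbers. -/
def Practical (m : ℕ) : Prop :=
  0 < m ∧ ∀ k, 1 ≤ k → k ≤ sig m → ∃ S : Finset ℕ, S ⊆ m.divisors ∧ ∑ d ∈ S, d = k

lemma sig_mul {m n : ℕ} (h : Nat.Coprime m n) : sig (m * n) = sig m * sig n :=
  h.sum_divisors_mul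

lemma rep {m : ℕ} (h : Practical m) (k : ℕ) (hk : k ≤ sig m) :
    ∃ S : Finset ℕ, S ⊆ m.divisors ∧ ∑ d ∈ S, d = k := by
  rcases Nat.eq_zero_or_pos k with rfl | h0
  · exact ⟨∅, empty_subset _, by simp⟩
  · exact h.2 k h0 hk

lemma split (q s t k : ℕ) (hq : 0 < q) (h1 : q ≤ t + 1) (hk : k ≤ q * s + t) :
    ∃ x y, x ≤ s ∧ y ≤ t ∧ k = q * x + y := by
  by_cases h : q * s ≤ k
  · exact ⟨s, k - q * s, le_rfl, by omega, by omega⟩
  · refine ⟨k / q, k % q, ?_, ?_, (Nat.div_add_mod k q).symm⟩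
    · exact Nat.div_le_of_le_mul (by omega)
    · have := Nat.mod_lt k hq; omega

lemma sig_pp {p : ℕ} (hp : p.Prime) (e : ℕ) : sig (p ^ (e + 1)) = p ^ (e + 1) + sig (p ^ e) := by
  unfold sig
  rw [Nat.sum_divisors_prime_pow hp, Nat.sum_divisors_prime_pow hp, sum_range_succ, add_comm]

lemma sig_pp2 {p : ℕ} (hp : p.Prime) (e : ℕ) : p ^ (e + 1) ≤ (p - 1) * sig (p ^ e) + 1 := by
  obtain ⟨r, rfl⟩ : ∃ r, p = r + 1 := ⟨p - 1, by have := hp.pos; omega⟩
  induction e with
  | zero => simp [sig]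
  | succ e ih =>
    rw [sig_pp hp]
    simp only [Nat.add_sub_cancel] at ih ⊢
    rw [pow_succ (r + 1) (e + 1)]
    nlinarith

lemma step {m p : ℕ} (hm : Practical m) (hp : p.Prime) (hc : Nat.Coprime m p)
    (hle : p ≤ sig m + 1) (e : ℕ) : Practical (m * p ^ e) := by
  induction e with
  | zero => simpa using hm
  | succ e ih =>
    have hpos : 0 < m * p ^ (e + 1) := Nat.mul_pos hm.1 (pow_pos hp.pos _)
    refine ⟨hpos, fun k _ hk => ?_⟩
    rw [sig_mul (hc.pow_right _), sig_pp hp] at hk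
    have h2 := sig_pp2 hp e
    have h3 : (p - 1) * sig (p ^ e) ≤ sig m * sig (p ^ e) := Nat.mul_le_mul_right _ (by omega)
    obtain ⟨x, y, hx, hy, rfl⟩ := split (p ^ (e + 1)) (sig m) (sig m * sig (p ^ e)) k
      (pow_pos hp.pos _) (by omega) (by nlinarith)
    obtain ⟨S, hS, rfl⟩ := rep hm x hx
    obtain ⟨T, hT, rfl⟩ := rep ih y (by rw [sig_mul (hc.pow_right _)]; exact hy)
    have hinj : Function.Injective (fun d => p ^ (e + 1) * d) :=
      fun b c h => Nat.eq_of_mul_eq_mul_left (pow_pos hp.pos _) h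
    refine ⟨S.image (fun d => p ^ (e + 1) * d) ∪ T, ?_, ?_⟩
    · intro d hd
      rw [Nat.mem_divisors]
      refine ⟨?_, hpos.ne'⟩
      rcases mem_union.mp hd with hd | hd
      · obtain ⟨c, hc1, rfl⟩ := mem_image.mp hd
        rw [mul_comm m]
        exact Nat.mul_dvd_mul_left _ (Nat.dvd_of_mem_divisors (hS hc1))
      · exact (Nat.dvd_of_mem_divisors (hT hd)).trans
          (Nat.mul_dvd_mul_left _ (pow_dvd_pow _ (Nat.le_succ e)))
    · rw [sum_union, sum_image (fun b _ c _ h => hinj h), mul_sum]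
      rw [disjoint_left]
      intro d hd hd2
      obtain ⟨c, -, rfl⟩ := mem_image.mp hd
      have h4 : p ^ (e + 1) ∣ m * p ^ e :=
        (Dvd.intro c rfl).trans (Nat.dvd_of_mem_divisors (hT hd2))
      have h5 : p ^ (e + 1) ∣ p ^ e := (hc.symm.pow_left _).dvd_of_dvd_mul_left h4
      have := (Nat.pow_dvd_pow_iff_le_right hp.one_lt).mp h5
      omega

lemma sig_mono {b c : ℕ} (h : b ∣ c) (hc : c ≠ 0) : sig b ≤ sig c :=
  sum_le_sum_of_subset (Nat.divisors_subset_of_dvd hc h)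

lemma one_prac : Practical 1 := by
  refine ⟨one_pos, fun k h1 h2 => ⟨{1}, by simp, ?_⟩⟩
  simp [sig] at h2 ⊢; omega

lemma main (n : ℕ) (hn : 0 < n) (ha : Practical (a n)) (hnp : ¬ Practical n) :
    ∃ U, 1 < U ∧ Odd U ∧ U ∣ n ∧ Nat.Coprime (n / U) U ∧ U ∣ sig U := by
  classical
  let P : ℕ → Prop := fun L => Practical L ∧ ∃ U, n = L * U ∧ Nat.Coprime L U
  have h1 : P 1 := ⟨one_prac, n, by simp, by simp⟩
  obtain ⟨hL, U, hU, hc⟩ : P (Nat.findGreatest P n) := Nat.findGreatest_spec hn h1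
  have hmax : ∀ L, P L → L ≤ n → L ≤ Nat.findGreatest P n := fun L h h2 => Nat.le_findGreatest h2 h
  generalize Nat.findGreatest P n = L at *
  have hL0 := hL.1
  have hU0 : 0 < U := Nat.pos_of_ne_zero (by rintro rfl; omega)
  have hU1 : U ≠ 1 := by rintro rfl; exact hnp (by simpa [hU] using hL)
  have hs1 : 1 ≤ sig L := by simpa [sig] using sig_mono (one_dvd L) hL0.ne'
  have big : ∀ p, p.Prime → p ∣ U → sig L + 1 < p := by
    intro p hp hpU
    by_contra hle
    obtain ⟨e, V, hV, rfl⟩ := Nat.exists_eq_pow_mul_and_not_dvd hU0.ne' p hp.ne_one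
    have he : e ≠ 0 := by rintro rfl; exact hV (by simpa using hpU)
    have hLp : Nat.Coprime L p := hc.coprime_dvd_right hpU
    have hP : P (L * p ^ e) := ⟨step hL hp hLp (by omega) e, V, by rw [hU]; ring,
      Nat.Coprime.mul_left (hc.coprime_dvd_right (Dvd.intro_left _ rfl))
        (((Nat.Prime.coprime_iff_not_dvd hp).mpr hV).pow_left _)⟩
    have h2 := hmax _ hP (Nat.le_of_dvd hn ⟨V, by rw [hU]; ring⟩)
    have h3 : 1 < p ^ e := Nat.one_lt_pow he hp.one_lt
    nlinarith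
  have cop : ∀ d, 0 < d → d ≤ sig L + 1 → Nat.Coprime d U := by
    intro d h0 hd
    refine Nat.coprime_of_dvd fun p hp h1 h2 => ?_
    have := big p hp h2
    have := Nat.le_of_dvd h0 h1
    omega
  have hg : Nat.gcd n (sig n) ∣ n := Nat.gcd_dvd_left _ _
  have han : a n * Nat.gcd n (sig n) = n := Nat.div_mul_cancel hg
  have hadvd : a n ∣ L * U := hU ▸ Dvd.intro _ han
  have haL : a n ∣ L := by
    by_contra hnd
    have ha0 := ha.1
    have hsub : insert (a n) (Nat.gcd (a n) L).divisors ⊆ (a n).divisors := by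
      intro d hd
      rcases mem_insert.mp hd with rfl | hd
      · exact Nat.mem_divisors_self _ ha0.ne'
      · exact Nat.divisors_subset_of_dvd ha0.ne' (Nat.gcd_dvd_left _ _) hd
    have hnot : a n ∉ (Nat.gcd (a n) L).divisors := fun h =>
      hnd ((Nat.dvd_of_mem_divisors h).trans (Nat.gcd_dvd_right _ _))
    have h2 : a n + sig (Nat.gcd (a n) L) ≤ sig (a n) := by
      have := sum_le_sum_of_subset (f := fun d => d) hsub
      rw [sum_insert hnot] at this
      exact this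
    have h3 : sig (Nat.gcd (a n) L) ≤ sig L := sig_mono (Nat.gcd_dvd_right _ _) hL0.ne'
    obtain ⟨S, hS, hsum⟩ := ha.2 (sig (Nat.gcd (a n) L) + 1) (by omega) (by omega)
    have h4 : S ⊆ (Nat.gcd (a n) L).divisors := by
      intro d hd
      have d1 := Nat.dvd_of_mem_divisors (hS hd)
      have d2 : d ≤ ∑ d ∈ S, d := single_le_sum (f := fun d => d) (fun _ _ => Nat.zero_le _) hd
      have d3 := cop d (Nat.pos_of_dvd_of_pos d1 ha0) (by omega)
      exact Nat.mem_divisors.mpr ⟨Nat.dvd_gcd d1 (d3.dvd_of_dvd_mul_right (d1.trans hadvd)),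
        (Nat.gcd_pos_of_pos_left _ ha0).ne'⟩
    have h5 : ∑ d ∈ S, d ≤ sig (Nat.gcd (a n) L) := sum_le_sum_of_subset h4
    omega
  obtain ⟨t, ht⟩ := haL
  have h6 : Nat.gcd n (sig n) = t * U := by
    refine Nat.eq_of_mul_eq_mul_left ha.1 ?_
    rw [han, ← mul_assoc, ← ht, hU]
  have h7 : U ∣ sig L * sig U := by
    rw [← sig_mul hc, ← hU]
    exact (Dvd.intro_left t h6.symm).trans (Nat.gcd_dvd_right _ _)
  refine ⟨U, by omega, ?_, Dvd.intro_left L hU.symm, ?_,
    (cop _ hs1 (by omega)).symm.dvd_of_dvd_mul_left h7⟩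
  · exact Nat.coprime_two_left.mp (cop 2 (by norm_num) (by omega))
  · rw [hU, Nat.mul_div_cancel _ hU0]; exact hc

theorem result :
    (∀ n, 0 < n → Practical (a n) → ¬ Practical n →
      ∃ U, 1 < U ∧ Odd U ∧ U ∣ n ∧ Nat.Coprime (n / U) U ∧ U ∣ sig U) ∧
    ((∀ n, 0 < n → Practical (a n) → Practical n) ↔ ¬ ∃ U, 1 < U ∧ Odd U ∧ U ∣ sig U) := by
  refine ⟨main, fun h => ?_, fun h n hn ha => ?_⟩
  · rintro ⟨U, h1, h2, h3⟩
    have e : a U = 1 := by
      unfold a
      rw [Nat.gcd_eq_left h3, Nat.div_self (by omega)]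
    have hp := h U (by omega) (e ▸ one_prac)
    have h4 : U ≤ sig U :=
      single_le_sum (f := fun d => d) (fun _ _ => Nat.zero_le _) (Nat.mem_divisors_self _ (by omega))
    obtain ⟨S, hS, hsum⟩ := hp.2 2 (by omega) (by omega)
    have h5 : S ⊆ {1} := by
      intro d hd
      have d1 := Nat.dvd_of_mem_divisors (hS hd)
      have d2 : d ≤ ∑ d ∈ S, d := single_le_sum (f := fun d => d) (fun _ _ => Nat.zero_le _) hd
      have d3 := (h2.of_dvd_nat d1)
      rcases d3 with ⟨r, hr⟩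
      rw [mem_singleton]; omega
    have h6 := sum_le_sum_of_subset (f := fun d => d) h5
    simp only [sum_singleton] at h6
    omega
  · by_contra hc
    obtain ⟨U, h1, h2, -, -, h3⟩ := main n hn ha hc
    exact h ⟨U, h1, h2, h3⟩

end Pool.Agent.Results.MP_ff748e_nt.Equiv
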